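import Pool.Agent.Helper20.SW.TwoGood
import Pool.Agent.Helper31.SW.Tau

/-!
(S4): the bound `chi_k(t) ≤ kv psi_k(t)` for odd `k ≥ 3`, and its consequences.
-/

set_option autoImplicit false

namespace Pool.Agent.Helper76.SW

open Pool.Agent.Helper6.HL hiding X
open Finset Polynomial
open Pool.Agent.Helper4.SW

variable {q : ℕ} {w : Fin q → ℝ} {y : ℝ}

/-- `psi_2(t) = s (s + v)` -/
theorem psi_two_top (h : Hyp w y) (t : Fin q) {s z v : ℝ} (hs : s = 1 - w t + y)
    (hz : s * z = ∑ i ∈ univ.erase t, w i * w i + y * y) (hv : v = w t - z) :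
    hat w (psi w y 2) t = s * (s + v) := by
  rw [hat_psi, Pool.Agent.Helper20.SW.ch_two h, Pool.Agent.Helper20.SW.l_two h,
    ← add_sum_erase univ (fun i => w i * w i) (mem_univ t)]
  have : s * v = s * w t - s * z := by rw [hv]; ring
  rw [mul_add, this, hz, hs]
  ring

/-- `psi_2(i) - psi_2(t) = (X - x) (s - x)` -/
theorem psi_two_sub (h : Hyp w y) (t i : Fin q) {s : ℝ} (hs : s = 1 - w t + y) :
    hat w (psi w y 2) i = hat w (psi w y 2) t + (w t - w i) * (s - w i) := by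
  rw [hat_psi, hat_psi, Pool.Agent.Helper20.SW.ch_two h, Pool.Agent.Helper20.SW.ch_two h, hs]
  ring

/-- `psi_3(t)` -/
theorem psi_three_top (h : Hyp w y) (t : Fin q) {s z v : ℝ} (hs : s = 1 - w t + y)
    (hz : s * z = ∑ i ∈ univ.erase t, w i * w i + y * y) (hv : v = w t - z) :
    hat w (psi w y 3) t = s * hat w (psi w y 2) t +
      (∑ i ∈ univ.erase t, w i * ((w t - w i) * (s - w i)) + y * ((w t - y) * (s - y))) := by
  have h1 : ∑ i ∈ univ.erase t, w i = 1 - w t := Pool.Agent.Helper20.SW.sum_erase_w h t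
  have h2 := psi_two_top h t hs hz hv
  have h3 : l w y 3 = hat w (psi w y 2) t + ∑ i ∈ univ.erase t, w i * ((w t - w i) * (s - w i)) := by
    rw [l_succ, L_def, E, ← add_sum_erase univ (fun i => w i * hat w (psi w y 2) i) (mem_univ t)]
    have : ∑ i ∈ univ.erase t, w i * hat w (psi w y 2) i =
        (∑ i ∈ univ.erase t, w i) * hat w (psi w y 2) t +
          ∑ i ∈ univ.erase t, w i * ((w t - w i) * (s - w i)) := by
      rw [sum_mul, ← sum_add_distrib]
      exact sum_congr rfl fun i _ => by rw [psi_two_sub h t i hs]; ring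
    rw [this, h1]
    ring
  have h4 : hat w (psi w y 2) t = s - ∑ i ∈ univ.erase t, w i * w i + y * (s - y) := by
    rw [h2]
    have : s * v = s * w t - s * z := by rw [hv]; ring
    rw [mul_add, this, hz, hs]
    ring
  rw [hat_psi, h3, Pool.Agent.Helper20.SW.ch_three h t]
  have h5 : y + (1 - w t) - ∑ i ∈ univ.erase t, w i * w i =
      hat w (psi w y 2) t - y * (s - y) := by
    rw [h4, hs]; ring
  have h6 : w t - y = 1 - s := by rw [hs]; ring
  rw [h5, h6]
  ring

/-- the numbers `s, z, v` -/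
theorem szv (h : Hyp w y) {t : Fin q} (ht : Top w t) {s z v : ℝ} (hs : s = 1 - w t + y)
    (hz : s * z = ∑ i ∈ univ.erase t, w i * w i + y * y) (hv : v = w t - z) :
    0 < s ∧ z ≤ 1 - w t ∧ 0 < v ∧ w t < s + v ∧ 0 < (s + v) ^ 2 - w t * v := by
  have hy := h.hy
  have hsig : y ≤ 1 - w t := by
    have h1 : ∑ i ∈ univ.erase t, w i = 1 - w t := Pool.Agent.Helper20.SW.sum_erase_w h t
    have h2 : (univ.erase t : Finset (Fin q)).Nonempty := by
      have h2 := h.two
      rw [← card_pos, card_erase_of_mem (mem_univ t), card_univ, Fintype.card_fin]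
      omega
    obtain ⟨i, hi⟩ := h2
    have h3 := single_le_sum (f := w) (fun j _ => h.nn j) hi
    have h4 := h.lt i
    linarith
  have hs0 : 0 < s := by rw [hs]; linarith
  have h1 : ∑ i ∈ univ.erase t, w i * w i ≤ (1 - w t) * (1 - w t) := by
    have h2 : ∑ i ∈ univ.erase t, w i * w i ≤ ∑ i ∈ univ.erase t, w i * (1 - w t) :=
      sum_le_sum fun i hi => mul_le_mul_of_nonneg_left
        (Pool.Agent.Helper20.SW.le_sig h (ne_of_mem_erase hi)) (h.nn i)
    rw [← sum_mul, Pool.Agent.Helper20.SW.sum_erase_w h t] at h2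
    exact h2
  have h2 : z ≤ 1 - w t := by
    refine le_of_mul_le_mul_left ?_ hs0
    rw [hz, hs]
    have := mul_le_mul_of_nonneg_left hsig hy.le
    nlinarith
  have h3 := Pool.Agent.Helper20.SW.half_top h ht
  have hv0 : 0 < v := by rw [hv]; linarith
  have h4 : w t < s + v := by rw [hv, hs]; linarith
  have hwt := h.pos t
  refine ⟨hs0, h2, hv0, h4, ?_⟩
  have h5 : v < s + v := by linarith
  have h6 := mul_lt_mul' h4.le h5 hv0.le (by linarith : 0 < s + v)
  nlinarith

theorem kv_pos (h : Hyp w y) {t : Fin q} (ht : Top w t) {s z v kv : ℝ} (hs : s = 1 - w t + y)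
    (hz : s * z = ∑ i ∈ univ.erase t, w i * w i + y * y) (hv : v = w t - z)
    (hkv : kv * ((s + v) ^ 2 - w t * v) = s + v) : 0 < kv := by
  obtain ⟨h1, h2, h3, h4, h5⟩ := szv h ht hs hz hv
  have h6 : 0 < kv * ((s + v) ^ 2 - w t * v) := by rw [hkv]; linarith
  exact (mul_pos_iff_of_pos_right h5).1 h6

/-- `psi_2(t) ≤ kv psi_3(t)` -/
theorem psi_two_le (h : Hyp w y) {t : Fin q} (ht : Top w t) {s z v kv : ℝ}
    (hs : s = 1 - w t + y)
    (hz : s * z = ∑ i ∈ univ.erase t, w i * w i + y * y) (hv : v = w t - z)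
    (hkv : kv * ((s + v) ^ 2 - w t * v) = s + v) :
    hat w (psi w y 2) t ≤ kv * hat w (psi w y 3) t := by
  obtain ⟨hs0, hz1, hv0, hsv, hden⟩ := szv h ht hs hz hv
  have hk := kv_pos h ht hs hz hv hkv
  have h1 : ∑ i ∈ univ.erase t, w i = 1 - w t := Pool.Agent.Helper20.SW.sum_erase_w h t
  have hsv' : s * v = s * w t - s * z := by rw [hv]; ring
  have hQ : 0 ≤ ∑ i ∈ univ.erase t, w i * (w t - w i - v) ^ 2 + y * (w t - y - v) ^ 2 :=
    add_nonneg (sum_nonneg fun i _ => mul_nonneg (h.nn i) (sq_nonneg _))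
      (mul_nonneg h.hy.le (sq_nonneg _))
  have hid : ∑ i ∈ univ.erase t, w i * ((w t - w i) * (s - w i)) =
      ∑ i ∈ univ.erase t, w i * (w t - w i - v) ^ 2
        + (s - w t + 2 * v) * (w t * ∑ i ∈ univ.erase t, w i - ∑ i ∈ univ.erase t, w i * w i)
        - v ^ 2 * ∑ i ∈ univ.erase t, w i := by
    rw [mul_sum, mul_sum, ← sum_sub_distrib, mul_sum, ← sum_add_distrib, ← sum_sub_distrib]
    exact sum_congr rfl fun i _ => by ring
  have h3 : s * ((s + v) ^ 2 - w t * v) ≤ hat w (psi w y 3) t := by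
    rw [psi_three_top h t hs hz hv, psi_two_top h t hs hz hv, hid, h1]
    have e1 : w t * (1 - w t) - ∑ i ∈ univ.erase t, w i * w i = s * v - y * (w t - y) := by
      rw [hsv', hz, hs]; ring
    rw [e1]
    have e2 : (1 - w t) = s - y := by rw [hs]; ring
    rw [e2]
    nlinarith
  have h4 := mul_le_mul_of_nonneg_left h3 hk.le
  have h5 : kv * (s * ((s + v) ^ 2 - w t * v)) = s * (s + v) := by
    rw [mul_left_comm, hkv]
  rw [psi_two_top h t hs hz hv, ← h5]
  exact h4

/-- (S4), core: `chi_k(t) ≤ kv psi_k(t)` for odd `k ≥ 3` -/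
theorem ch_le_kv (h : Hyp w y) {t : Fin q} (ht : Top w t) {s z v kv : ℝ}
    (hs : s = 1 - w t + y)
    (hz : s * z = ∑ i ∈ univ.erase t, w i * w i + y * y) (hv : v = w t - z)
    (hkv : kv * ((s + v) ^ 2 - w t * v) = s + v) {k : ℕ} (hk : Odd k) (hk3 : 3 ≤ k) :
    ch w y k t ≤ kv * hat w (psi w y k) t := by
  obtain ⟨j, rfl⟩ := Nat.exists_eq_add_of_le hk3
  have hkv0 := kv_pos h ht hs hz hv hkv
  have h1 : ch w y 3 t ≤ kv * hat w (psi w y 3) t := by
    refine le_trans ?_ (psi_two_le h ht hs hz hv hkv)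
    rw [hat_psi']
    have := mul_nonneg h.hy.le ((Cone.ch h.nn h.hy.le 2).nn t)
    linarith
  have h2 := ((Pool.Agent.Helper31.SW.top_alt h ht j 3).2 (by decide)).1
  rw [Pool.Agent.Helper31.SW.N, Pool.Agent.Helper31.SW.N] at h2
  have hwt := h.pos t
  have h3 : ch w y (3 + j) t * l w y 3 ≤ ch w y 3 t * l w y (3 + j) := by
    refine le_of_mul_le_mul_left ?_ hwt
    linarith
  have hl3 := Pool.Agent.Helper31.SW.l_pos h 3
  have hlk := Pool.Agent.Helper31.SW.l_pos h (3 + j)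
  rw [hat_psi] at h1 ⊢
  have hd : 0 ≤ w t - y := sub_nonneg.2 (h.lt t).le
  have h4 : 0 ≤ 1 + kv * (w t - y) := by positivity
  refine le_of_mul_le_mul_left ?_ hl3
  have h5 := mul_le_mul_of_nonneg_left h3 h4
  have h6 := mul_le_mul_of_nonneg_left h1 hlk.le
  nlinarith

/-- (S4 a): `Psi_i - 1 ≤ kv (X - x_i)` -/
theorem S4a (h : Hyp w y) {t : Fin q} (ht : Top w t) {s z v kv : ℝ}
    (hs : s = 1 - w t + y)
    (hz : s * z = ∑ i ∈ univ.erase t, w i * w i + y * y) (hv : v = w t - z)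
    (hkv : kv * ((s + v) ^ 2 - w t * v) = s + v) {k : ℕ} (hk : Odd k) (hk3 : 3 ≤ k) (i : Fin q) :
    hat w (psi w y k) i - hat w (psi w y k) t ≤ kv * (w t - w i) * hat w (psi w y k) t := by
  have h1 := ch_le_kv h ht hs hz hv hkv hk hk3
  have h2 : hat w (psi w y k) i - hat w (psi w y k) t ≤ (w t - w i) * ch w y k t := by
    rw [hat_psi, hat_psi]
    have h3 := (Cone.ch h.nn h.hy.le k).anti i t (ht i)
    have h4 := mul_le_mul_of_nonneg_left h3 (sub_nonneg.2 (h.lt i).le)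
    linarith
  have h3 := mul_le_mul_of_nonneg_left h1 (sub_nonneg.2 (ht i))
  linarith

/-- (S4 b): `l_k / psi_k(t) - 1 ≤ kv (X - y)` -/
theorem S4b (h : Hyp w y) {t : Fin q} (ht : Top w t) {s z v kv : ℝ}
    (hs : s = 1 - w t + y)
    (hz : s * z = ∑ i ∈ univ.erase t, w i * w i + y * y) (hv : v = w t - z)
    (hkv : kv * ((s + v) ^ 2 - w t * v) = s + v) {k : ℕ} (hk : Odd k) (hk3 : 3 ≤ k) :
    l w y k - hat w (psi w y k) t ≤ kv * (w t - y) * hat w (psi w y k) t := by
  have h1 := ch_le_kv h ht hs hz hv hkv hk hk3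
  have h3 := mul_le_mul_of_nonneg_left h1 (sub_nonneg.2 (h.lt t).le)
  have h2 : l w y k - hat w (psi w y k) t = (w t - y) * ch w y k t := by
    rw [hat_psi]; ring
  rw [h2]
  linarith

/-- (S4 c): `Pw k ≤ (1 + X - om) psi_k(t)` with `om = X - y - s v kv` -/
theorem S4c (h : Hyp w y) {t : Fin q} (ht : Top w t) {s z v kv : ℝ}
    (hs : s = 1 - w t + y)
    (hz : s * z = ∑ i ∈ univ.erase t, w i * w i + y * y) (hv : v = w t - z)
    (hkv : kv * ((s + v) ^ 2 - w t * v) = s + v) {k : ℕ} (hk : Odd k) (hk3 : 3 ≤ k) :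
    Pw w y k ≤ (1 + w t - (w t - y - s * v * kv)) * hat w (psi w y k) t := by
  have ha := S4a h ht hs hz hv hkv hk hk3
  have hb := S4b h ht hs hz hv hkv hk hk3
  set P := hat w (psi w y k) t with hP
  have h1 : ∑ i ∈ univ.erase t, w i = 1 - w t := Pool.Agent.Helper20.SW.sum_erase_w h t
  have e1 : Pw w y k = y * l w y k + (w t * P +
      ∑ i ∈ univ.erase t, w i * hat w (psi w y k) i) := by
    rw [Pool.Agent.Helper20.SW.Pw_eq, l_succ, L_def, E,
      ← add_sum_erase univ (fun i => w i * hat w (psi w y k) i) (mem_univ t)]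
  have e2 : ∑ i ∈ univ.erase t, w i * hat w (psi w y k) i ≤
      ∑ i ∈ univ.erase t, w i * (P + kv * (w t - w i) * P) :=
    sum_le_sum fun i _ => mul_le_mul_of_nonneg_left (by linarith [ha i]) (h.nn i)
  have e3 : ∑ i ∈ univ.erase t, w i * (P + kv * (w t - w i) * P) =
      (∑ i ∈ univ.erase t, w i) * (P + kv * w t * P) -
        kv * P * ∑ i ∈ univ.erase t, w i * w i := by
    rw [sum_mul, mul_sum, ← sum_sub_distrib]
    exact sum_congr rfl fun i _ => by ring
  have e4 : ∑ i ∈ univ.erase t, w i * w i = s * (w t - v) - y * y := by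
    have : w t - v = z := by rw [hv]; ring
    rw [this, hz]; ring
  have e5 := mul_le_mul_of_nonneg_left hb h.hy.le
  rw [e3, h1, e4] at e2
  rw [e1]
  have e6 : w t = 1 + y - s := by rw [hs]; ring
  rw [e6] at e2 e5 ⊢
  nlinarith

end Pool.Agent.Helper76.SW
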